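import Pool.Agent.Helper49_HM.Top

/-!
# HM: module QUOT, the quotient `M / SO(2)` is `C01 × (0,∞)`
-/

namespace Pool.Agent.HM.H81

open Complex Set Topology

noncomputable section

variable {m : Fin 3 → ℝ}

/-- the ratio of a configuration -/
def zet (q : ConfM m) : C01 :=
  ⟨(q.1 2 - q.1 0) / (q.1 1 - q.1 0), by
    have h10 : q.1 1 - q.1 0 ≠ 0 := sub_ne_zero.2 (q.2.2 1 0 (by decide))
    have h20 : q.1 2 - q.1 0 ≠ 0 := sub_ne_zero.2 (q.2.2 2 0 (by decide))
    have h21 : q.1 2 ≠ q.1 1 := q.2.2 2 1 (by decide)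
    refine ⟨div_ne_zero h20 h10, ?_⟩
    intro h
    rw [div_eq_one_iff_eq h10] at h
    exact h21 (sub_left_injective h)⟩

theorem continuous_coord (i : Fin 3) : Continuous fun q : ConfM m => q.1 i :=
  (continuous_apply i).comp continuous_subtype_val

theorem continuous_zet : Continuous (zet (m := m)) := by
  refine Continuous.subtype_mk ?_ _
  refine Continuous.div ((continuous_coord 2).sub (continuous_coord 0))
    ((continuous_coord 1).sub (continuous_coord 0)) ?_
  intro q
  exact sub_ne_zero.2 (q.2.2 1 0 (by decide))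

/-- the ratio on the quotient -/
def zetQ : RConf m → C01 :=
  Quotient.lift zet (by
    rintro x y ⟨u, hu, h⟩
    have hu0 : u ≠ 0 := by
      rintro rfl
      simp at hu
    have h10 : x.1 1 - x.1 0 ≠ 0 := sub_ne_zero.2 (x.2.2 1 0 (by decide))
    apply Subtype.ext
    simp only [zet, h]
    rw [← mul_sub, ← mul_sub, mul_div_mul_left _ _ hu0])

theorem continuous_zetQ : Continuous (zetQ (m := m)) :=
  Continuous.quotient_lift continuous_zet _

/-- the size on the quotient -/
def siz : RConf m → ℝ :=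
  Quotient.lift (fun q : ConfM m => ‖q.1 1 - q.1 0‖) (by
    rintro x y ⟨u, hu, h⟩
    simp only [h]
    rw [← mul_sub, norm_mul, hu, one_mul])

theorem continuous_siz : Continuous (siz (m := m)) := by
  exact Continuous.quotient_lift ((continuous_coord 1).sub (continuous_coord 0)).norm _

theorem siz_pos (x : RConf m) : 0 < siz x := by
  induction x using Quotient.inductionOn with
  | h q => exact norm_pos_iff.2 (sub_ne_zero.2 (q.2.2 1 0 (by decide)))

/-- the configuration with given ratio and size -/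
def cfg (m : Fin 3 → ℝ) (z : ℂ) (r : ℝ) : Conf := fun i =>
  ![(0 : ℂ), (r : ℂ), (r : ℂ) * z] i -
    ((m 1 : ℂ) * r + (m 2 : ℂ) * (r * z)) / ((m 0 : ℂ) + m 1 + m 2)

theorem cfg_mem (hm : ∀ i, 0 < m i) (z : C01) {r : ℝ} (hr : 0 < r) : cfg m z r ∈ ConfM m := by
  have hM : (m 0 : ℂ) + m 1 + m 2 ≠ 0 := by
    have : (0 : ℝ) < m 0 + m 1 + m 2 := by
      have := hm 0
      have := hm 1
      have := hm 2
      linarith
    exact_mod_cast this.ne'
  have hr0 : (r : ℂ) ≠ 0 := by exact_mod_cast hr.ne'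
  have hz0 : (z : ℂ) ≠ 0 := z.2.1
  have hz1 : (z : ℂ) ≠ 1 := z.2.2
  refine ⟨?_, ?_⟩
  · simp only [Fin.sum_univ_three, cfg]
    simp only [Matrix.cons_val_zero, Matrix.cons_val_one, Matrix.cons_val]
    field_simp
    ring
  · have h01 : cfg m z r 0 ≠ cfg m z r 1 := by
      intro h
      simp only [cfg, Matrix.cons_val_zero, Matrix.cons_val_one] at h
      exact hr0 (sub_left_injective h).symm
    have h02 : cfg m z r 0 ≠ cfg m z r 2 := by
      intro h
      simp only [cfg, Matrix.cons_val_zero, Matrix.cons_val] at h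
      exact (mul_ne_zero hr0 hz0) (sub_left_injective h).symm
    have h12 : cfg m z r 1 ≠ cfg m z r 2 := by
      intro h
      simp only [cfg, Matrix.cons_val_one, Matrix.cons_val] at h
      have h2 : (r : ℂ) = r * z := sub_left_injective h
      apply hz1
      have h3 : (r : ℂ) * 1 = r * z := by rw [mul_one]; exact h2
      exact (mul_left_cancel₀ hr0 h3).symm
    intro i j hij
    fin_cases i <;> fin_cases j
    · exact absurd rfl hij
    · exact h01
    · exact h02
    · exact h01.symm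
    · exact absurd rfl hij
    · exact h12
    · exact h02.symm
    · exact h12.symm
    · exact absurd rfl hij

/-- the point of the quotient with given ratio and size -/
def psi (hm : ∀ i, 0 < m i) (p : C01 × Ioi (0 : ℝ)) : RConf m :=
  cls ⟨cfg m p.1 p.2, cfg_mem hm p.1 p.2.2⟩

theorem continuous_psi (hm : ∀ i, 0 < m i) : Continuous (psi hm) := by
  refine Continuous.comp continuous_quotient_mk' ?_
  refine Continuous.subtype_mk ?_ _
  refine continuous_pi fun i => ?_
  unfold cfg
  refine Continuous.sub ?_ (by fun_prop)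
  fin_cases i <;> simp <;> fun_prop

theorem psi_eq (hm : ∀ i, 0 < m i) (x : RConf m) :
    psi hm (zetQ x, ⟨siz x, siz_pos x⟩) = x := by
  induction x using Quotient.inductionOn with
  | h q =>
    have h10 : q.1 1 - q.1 0 ≠ 0 := sub_ne_zero.2 (q.2.2 1 0 (by decide))
    have hn : ‖q.1 1 - q.1 0‖ ≠ 0 := norm_ne_zero_iff.2 h10
    have hnc : (‖q.1 1 - q.1 0‖ : ℂ) ≠ 0 := by exact_mod_cast hn
    have hM : (m 0 : ℂ) + m 1 + m 2 ≠ 0 := by
      have : (0 : ℝ) < m 0 + m 1 + m 2 := by
        have := hm 0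
        have := hm 1
        have := hm 2
        linarith
      exact_mod_cast this.ne'
    have hsum : (m 0 : ℂ) * q.1 0 + m 1 * q.1 1 + m 2 * q.1 2 = 0 := by
      have := q.2.1
      rwa [Fin.sum_univ_three] at this
    refine Quotient.sound ?_
    refine ⟨(q.1 1 - q.1 0) / ‖q.1 1 - q.1 0‖, ?_, ?_⟩
    · rw [norm_div, Complex.norm_real, norm_norm, div_self hn]
    · have key : ((m 1 : ℂ) * ‖q.1 1 - q.1 0‖ + (m 2 : ℂ) * (‖q.1 1 - q.1 0‖ *
          ((q.1 2 - q.1 0) / (q.1 1 - q.1 0)))) / ((m 0 : ℂ) + m 1 + m 2) *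
          ((q.1 1 - q.1 0) / ‖q.1 1 - q.1 0‖) = - q.1 0 := by
        field_simp
        linear_combination hsum
      intro i
      have hi : ![(0 : ℂ), (‖q.1 1 - q.1 0‖ : ℂ), (‖q.1 1 - q.1 0‖ : ℂ) *
          ((q.1 2 - q.1 0) / (q.1 1 - q.1 0))] i * ((q.1 1 - q.1 0) / ‖q.1 1 - q.1 0‖) =
          q.1 i - q.1 0 := by
        fin_cases i
        · simp
        · simp
          field_simp
        · simp
          field_simp
      change q.1 i = (q.1 1 - q.1 0) / ‖q.1 1 - q.1 0‖ *
        (![(0 : ℂ), (‖q.1 1 - q.1 0‖ : ℂ), (‖q.1 1 - q.1 0‖ : ℂ) *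
          ((q.1 2 - q.1 0) / (q.1 1 - q.1 0))] i -
          ((m 1 : ℂ) * ‖q.1 1 - q.1 0‖ + (m 2 : ℂ) * (‖q.1 1 - q.1 0‖ *
          ((q.1 2 - q.1 0) / (q.1 1 - q.1 0)))) / ((m 0 : ℂ) + m 1 + m 2))
      rw [mul_sub, mul_comm _ (![(0 : ℂ), _, _] i), hi, mul_comm _ (_ / ((m 0 : ℂ) + m 1 + m 2)),
        key]
      ring

theorem quot : QuotStmt := by
  intro m hm
  refine ⟨⟨zetQ, continuous_zetQ⟩, fun q => rfl, ?_⟩
  rintro γ δ ⟨H⟩
  refine ⟨⟨⟨fun p => psi hm (H p, ⟨(1 - (p.1 : ℝ)) * siz (γ p.2) + (p.1 : ℝ) * siz (δ p.2), ?_⟩),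
    ?_⟩, ?_, ?_⟩⟩
  · have h0 : 0 ≤ (p.1 : ℝ) := p.1.2.1
    have h1 : (p.1 : ℝ) ≤ 1 := p.1.2.2
    have h2 := siz_pos (γ p.2)
    have h3 := siz_pos (δ p.2)
    rw [mem_Ioi]
    rcases h0.eq_or_lt with h | h
    · rw [← h]
      simpa using h2
    · have := mul_pos h h3
      have := mul_nonneg (sub_nonneg.2 h1) h2.le
      linarith
  · refine (continuous_psi hm).comp (Continuous.prodMk H.continuous ?_)
    refine Continuous.subtype_mk ?_ _
    have hγ : Continuous fun p : unitInterval × AddCircle (1 : ℝ) => siz (γ p.2) :=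
      continuous_siz.comp (γ.continuous.comp continuous_snd)
    have hδ : Continuous fun p : unitInterval × AddCircle (1 : ℝ) => siz (δ p.2) :=
      continuous_siz.comp (δ.continuous.comp continuous_snd)
    have h1 : Continuous fun p : unitInterval × AddCircle (1 : ℝ) => (p.1 : ℝ) :=
      continuous_subtype_val.comp continuous_fst
    exact ((continuous_const.sub h1).mul hγ).add (h1.mul hδ)
  · intro x
    have h1 : H (0, x) = zetQ (γ x) := H.map_zero_left x
    simp only [h1]
    convert psi_eq hm (γ x) using 3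
    apply Subtype.ext
    simp
  · intro x
    have h1 : H (1, x) = zetQ (δ x) := H.map_one_left x
    simp only [h1]
    convert psi_eq hm (δ x) using 3
    apply Subtype.ext
    simp

end

end Pool.Agent.HM.H81
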